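import Mathlib
import Pool.Agent.H12.Upc

set_option autoImplicit false

namespace Pool.Agent.Results.MP_0aa0f2_co.Twelve

open Pool.Agent.H12.Upc

theorem result : ∃ (a n N : ℕ) (u : ZMod N → Option (Fin a)),
    2 ≤ a ∧ 1 ≤ n ∧ n ≠ 4 ∧ n ≠ 8 ∧ 1 ≤ N ∧ IsUpcycle n u ∧ NonTrivial u :=
  ⟨2, 12, 512, U, le_rfl, by norm_num, by norm_num, by norm_num, by norm_num, U_up, U_nt⟩

end Pool.Agent.Results.MP_0aa0f2_co.Twelve
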